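import Pool.Agent.H56.EH.Def2

/-!
# ELSS for `m ≥ n² / 4`: the counting step (module CNT)
-/

set_option autoImplicit false

namespace Pool.Agent.H56.EH

open Finset

variable {L : ℕ} [NeZero L]

open scoped Classical in
/-- The counting step: from the bound of `abs` for the given sequence. -/
theorem cnt_of_abs {P : Type} [Fintype P] [DecidableEq P] {T : ℕ} {S : ℕ → Finset P}
    (h : HSeq T S) (r : ℕ) (hr : 2 * r ≤ L)
    (habs : ∃ t : Fin L → ℕ, (∀ i, t i ≤ T) ∧
      ∑ u : P, ∑ v : P, ((r - (univ.filter fun i : Fin L => (u ∈ S (t i) ↔ v ∈ S (t i))).card : ℕ) : ℝ)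
        ≤ r ^ 2 * (Fintype.card P : ℝ) ^ 2 / (2 * L) + 2 * L ^ 2 * r ^ 2 * (Fintype.card P : ℝ) +
          2 * L ^ 5 * r ^ 2)
    (E : Finset (P × P)) (C : ℝ)
    (hC : ∀ t ≤ T, ((E.filter fun z => ¬ (z.1 ∈ S t ↔ z.2 ∈ S t)).card : ℝ) ≤ C) :
    ((L - r : ℕ) : ℝ) * E.card ≤ L * C + ((L - r : ℕ) : ℝ) ^ 2 * (Fintype.card P : ℝ) ^ 2 / (2 * L) +
      2 * L ^ 2 * r ^ 2 * (Fintype.card P : ℝ) + 2 * L ^ 5 * r ^ 2 := by
  obtain ⟨t, ht, hsum⟩ := habs
  have hL : (0 : ℝ) < L := by exact_mod_cast Nat.pos_of_ne_zero (NeZero.ne L)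
  have hrL : r ≤ L := by omega
  set n : ℝ := (Fintype.card P : ℝ) with hn
  -- number of lines with `u`, `v` on the same side, and on different sides
  set s : P → P → ℕ := fun u v => (univ.filter fun i : Fin L => (u ∈ S (t i) ↔ v ∈ S (t i))).card
    with hs
  set d : P → P → ℕ := fun u v => (univ.filter fun i : Fin L => ¬ (u ∈ S (t i) ↔ v ∈ S (t i))).card
    with hd
  have hsd : ∀ u v, s u v + d u v = L := by
    intro u v
    have := Finset.card_filter_add_card_filter_not (s := (univ : Finset (Fin L)))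
      (fun i : Fin L => (u ∈ S (t i) ↔ v ∈ S (t i)))
    simpa [hs, hd] using this
  -- the sum of `d` over `E`
  have hdE : (∑ z ∈ E, (d z.1 z.2 : ℝ)) ≤ L * C := by
    have h1 : (∑ z ∈ E, (d z.1 z.2 : ℝ)) =
        ∑ i : Fin L, ((E.filter fun z => ¬ (z.1 ∈ S (t i) ↔ z.2 ∈ S (t i))).card : ℝ) := by
      have h2 : ∀ z : P × P, (d z.1 z.2 : ℝ) =
          ∑ i : Fin L, if ¬ (z.1 ∈ S (t i) ↔ z.2 ∈ S (t i)) then (1 : ℝ) else 0 := by
        intro z
        simp only [hd]
        rw [Finset.card_filter]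
        push_cast
        rfl
      simp_rw [h2]
      rw [Finset.sum_comm]
      refine Finset.sum_congr rfl fun i _ => ?_
      rw [Finset.card_filter]
      push_cast
      rfl
    rw [h1]
    calc ∑ i : Fin L, ((E.filter fun z => ¬ (z.1 ∈ S (t i) ↔ z.2 ∈ S (t i))).card : ℝ)
        ≤ ∑ _i : Fin L, C := Finset.sum_le_sum fun i _ => hC (t i) (ht i)
      _ = L * C := by simp
  -- the sum of `d` over all pairs
  have hdall : (∑ u : P, ∑ v : P, (d u v : ℝ)) = L * n ^ 2 / 2 := by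
    have h2 : ∀ u v : P, (d u v : ℝ) =
        ∑ i : Fin L, ((if u ∈ S (t i) then (1 : ℝ) else 0) + (if v ∈ S (t i) then (1 : ℝ) else 0)
          - 2 * ((if u ∈ S (t i) then (1 : ℝ) else 0) * (if v ∈ S (t i) then (1 : ℝ) else 0))) := by
      intro u v
      simp only [hd]
      rw [Finset.card_filter]
      push_cast
      refine Finset.sum_congr rfl fun i _ => ?_
      by_cases hu : u ∈ S (t i) <;> by_cases hv : v ∈ S (t i) <;> simp [hu, hv] <;> norm_num
    have hc : ∀ i : Fin L, (∑ u : P, if u ∈ S (t i) then (1 : ℝ) else 0) = n / 2 := by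
      intro i
      have h3 := h.card (t i) (ht i)
      have h4 : (2 : ℝ) * ((S (t i)).card : ℝ) = n := by rw [hn]; exact_mod_cast h3
      have h5 : (∑ u : P, if u ∈ S (t i) then (1 : ℝ) else 0) = ((S (t i)).card : ℝ) := by
        simp
      rw [h5]; linarith
    calc (∑ u : P, ∑ v : P, (d u v : ℝ))
        = ∑ u : P, ∑ v : P, ∑ i : Fin L, ((if u ∈ S (t i) then (1 : ℝ) else 0) +
          (if v ∈ S (t i) then (1 : ℝ) else 0) - 2 * ((if u ∈ S (t i) then (1 : ℝ) else 0) *
          (if v ∈ S (t i) then (1 : ℝ) else 0))) := by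
          refine Finset.sum_congr rfl fun u _ => Finset.sum_congr rfl fun v _ => h2 u v
      _ = ∑ i : Fin L, ∑ u : P, ∑ v : P, ((if u ∈ S (t i) then (1 : ℝ) else 0) +
          (if v ∈ S (t i) then (1 : ℝ) else 0) - 2 * ((if u ∈ S (t i) then (1 : ℝ) else 0) *
          (if v ∈ S (t i) then (1 : ℝ) else 0))) := by
          rw [Finset.sum_comm]
          rw [Finset.sum_congr rfl fun v _ => Finset.sum_comm]
          rw [Finset.sum_comm]
          refine Finset.sum_congr rfl fun i _ => Finset.sum_comm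
      _ = ∑ _i : Fin L, n ^ 2 / 2 := by
          refine Finset.sum_congr rfl fun i _ => ?_
          have hi := hc i
          set a : P → ℝ := fun u => if u ∈ S (t i) then (1 : ℝ) else 0 with ha
          have hi' : ∑ u : P, a u = n / 2 := hi
          have h6 : ∀ u : P, ∑ v : P, (a u + a v - 2 * (a u * a v)) =
              n * a u + n / 2 - n * a u := by
            intro u
            rw [Finset.sum_sub_distrib, Finset.sum_add_distrib, ← Finset.mul_sum,
              ← Finset.mul_sum, hi']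
            simp only [Finset.sum_const, Finset.card_univ, nsmul_eq_mul]
            rw [← hn]; ring
          calc ∑ u : P, ∑ v : P, (a u + a v - 2 * (a u * a v))
              = ∑ u : P, (n * a u + n / 2 - n * a u) := Finset.sum_congr rfl fun u _ => h6 u
            _ = ∑ _u : P, n / 2 := Finset.sum_congr rfl fun u _ => by ring
            _ = n ^ 2 / 2 := by
              simp only [Finset.sum_const, Finset.card_univ, nsmul_eq_mul]
              rw [← hn]; ring
      _ = L * n ^ 2 / 2 := by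
          simp only [Finset.sum_const, Finset.card_univ, Fintype.card_fin, nsmul_eq_mul]
          ring
  have hR : ((L - r : ℕ) : ℝ) = (L : ℝ) - r := by rw [Nat.cast_sub hrL]
  -- truncated differences
  have key : ∀ u v : P, (((L - r) - d u v : ℕ) : ℝ) =
      ((L : ℝ) - r) - d u v + ((r - s u v : ℕ) : ℝ) := by
    intro u v
    have h1 := hsd u v
    have h2 : (L - r) - d u v + d u v = (L - r) + (r - s u v) := by omega
    have h3 : ((((L - r) - d u v : ℕ) : ℝ)) + (d u v : ℝ) = ((L - r : ℕ) : ℝ) + ((r - s u v : ℕ) : ℝ) := by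
      exact_mod_cast h2
    rw [hR] at h3
    linarith
  have htot : (∑ u : P, ∑ v : P, (((L - r) - d u v : ℕ) : ℝ)) ≤
      ((L : ℝ) - r) * n ^ 2 - L * n ^ 2 / 2 + (r ^ 2 * n ^ 2 / (2 * L) + 2 * L ^ 2 * r ^ 2 * n +
        2 * L ^ 5 * r ^ 2) := by
    have h1 : (∑ u : P, ∑ v : P, (((L - r) - d u v : ℕ) : ℝ)) =
        ((L : ℝ) - r) * n ^ 2 - (∑ u : P, ∑ v : P, (d u v : ℝ)) +
          ∑ u : P, ∑ v : P, ((r - s u v : ℕ) : ℝ) := by
      have h2 : (∑ _u : P, ∑ _v : P, ((L : ℝ) - r)) = ((L : ℝ) - r) * n ^ 2 := by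
        simp only [Finset.sum_const, Finset.card_univ, nsmul_eq_mul]
        rw [← hn]; ring
      rw [← h2, ← Finset.sum_sub_distrib, ← Finset.sum_add_distrib]
      refine Finset.sum_congr rfl fun u _ => ?_
      rw [← Finset.sum_sub_distrib, ← Finset.sum_add_distrib]
      exact Finset.sum_congr rfl fun v _ => key u v
    rw [h1, hdall]
    have h3 : (∑ u : P, ∑ v : P, ((r - s u v : ℕ) : ℝ)) ≤ r ^ 2 * n ^ 2 / (2 * L) +
        2 * L ^ 2 * r ^ 2 * n + 2 * L ^ 5 * r ^ 2 := hsum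
    linarith
  have hE1 : ((L - r : ℕ) : ℝ) * E.card ≤ (∑ z ∈ E, (d z.1 z.2 : ℝ)) +
      ∑ z ∈ E, (((L - r) - d z.1 z.2 : ℕ) : ℝ) := by
    rw [← Finset.sum_add_distrib]
    have h1 : ((L - r : ℕ) : ℝ) * E.card = ∑ _z ∈ E, ((L - r : ℕ) : ℝ) := by
      simp only [Finset.sum_const, nsmul_eq_mul]; ring
    rw [h1]
    refine Finset.sum_le_sum fun z _ => ?_
    have h2 : L - r ≤ d z.1 z.2 + ((L - r) - d z.1 z.2) := by omega
    exact_mod_cast h2
  have hE2 : (∑ z ∈ E, (((L - r) - d z.1 z.2 : ℕ) : ℝ)) ≤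
      ∑ u : P, ∑ v : P, (((L - r) - d u v : ℕ) : ℝ) := by
    rw [← Finset.sum_product']
    refine Finset.sum_le_sum_of_subset_of_nonneg (fun z _ => by simp) fun z _ _ => ?_
    positivity
  have hfin : ((L : ℝ) - r) * n ^ 2 - L * n ^ 2 / 2 + r ^ 2 * n ^ 2 / (2 * L) =
      ((L : ℝ) - r) ^ 2 * n ^ 2 / (2 * L) := by
    field_simp
    ring
  rw [hR] at hE1 ⊢
  have h7 := hE1.trans (add_le_add hdE (hE2.trans htot))
  linarith [h7, hfin]

end Pool.Agent.H56.EH
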